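import Mathlib
import Pool.Agent.Helper69.BQ.Defs
import Pool.Agent.Helper69.BQ.Statement

/-!
# BQ, pieces D2, D5, D6
-/

set_option autoImplicit false

namespace Pool.Agent.Helper41.BQ

open Module NumberField Pool.Agent.Helper25.Biq Pool.Agent.Helper69.BQ

variable {K : Type} [Field K] [NumberField K] [IsGalois ℚ K] {g12 g13 g23 : ℤ}

omit [IsGalois ℚ K] in
lemma v4_cases (D : Dat K g12 g13 g23) (a b c d : ZMod 2) :
    D.σ ^ (a + c).val * D.τ ^ (b + d).val = (D.σ ^ a.val * D.τ ^ b.val) *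
      (D.σ ^ c.val * D.τ ^ d.val) := by
  have hss := D.v4.ss
  have htt := D.v4.tt
  have hc : D.σ * D.τ = D.τ * D.σ := by rw [D.v4.st, D.v4.ts]
  have hv : ∀ (x : K ≃ₐ[ℚ] K) (hx : x * x = 1) (p q : ZMod 2),
      x ^ (p + q).val = x ^ p.val * x ^ q.val := by
    intro x hx p q
    rw [← pow_add, ZMod.val_add]
    conv_rhs => rw [← Nat.div_add_mod (p.val + q.val) 2, pow_add, pow_mul, sq, hx, one_pow,
      one_mul]
  have hcomm : Commute D.σ D.τ := hc
  rw [hv _ hss, hv _ htt, mul_assoc, mul_assoc]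
  congr 1
  rw [← mul_assoc, ← mul_assoc]
  congr 1
  exact (hcomm.pow_pow _ _)

/-- D2. The isomorphism of `C₂ × C₂` with the Galois group given by `σ` and `τ`. -/
theorem exists_phi (D : Dat K g12 g13 g23) : ∃ φ : C22 ≃* (K ≃ₐ[ℚ] K),
    φ (Multiplicative.ofAdd (1, 0)) = D.σ ∧ φ (Multiplicative.ofAdd (0, 1)) = D.τ ∧
      φ (Multiplicative.ofAdd (1, 1)) = D.ρ := by
  let f : C22 →* (K ≃ₐ[ℚ] K) :=
    { toFun := fun g => D.σ ^ (Multiplicative.toAdd g).1.val * D.τ ^ (Multiplicative.toAdd g).2.val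
      map_one' := by
        show D.σ ^ (0 : ZMod 2).val * D.τ ^ (0 : ZMod 2).val = 1
        simp
      map_mul' := fun g h => v4_cases D _ _ _ _ }
  have h10 : f (Multiplicative.ofAdd (1, 0)) = D.σ := by
    show D.σ ^ (1 : ZMod 2).val * D.τ ^ (0 : ZMod 2).val = D.σ
    rw [ZMod.val_one, ZMod.val_zero, pow_one, pow_zero, mul_one]
  have h01 : f (Multiplicative.ofAdd (0, 1)) = D.τ := by
    show D.σ ^ (0 : ZMod 2).val * D.τ ^ (1 : ZMod 2).val = D.τ
    rw [ZMod.val_one, ZMod.val_zero, pow_one, pow_zero, one_mul]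
  have h11 : f (Multiplicative.ofAdd (1, 1)) = D.ρ := by
    show D.σ ^ (1 : ZMod 2).val * D.τ ^ (1 : ZMod 2).val = D.ρ
    rw [ZMod.val_one, pow_one, pow_one, D.v4.st]
  have hz : ∀ a : ZMod 2, a = 0 ∨ a = 1 := by decide
  have hbij : Function.Bijective f := by
    constructor
    · rw [injective_iff_map_eq_one]
      intro g hg
      obtain ⟨⟨a, b⟩, rfl⟩ : ∃ p : ZMod 2 × ZMod 2, g = Multiplicative.ofAdd p := ⟨g, rfl⟩
      rcases hz a with rfl | rfl <;> rcases hz b with rfl | rfl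
      · rfl
      · rw [h01] at hg
        exact absurd hg D.v4.t1
      · rw [h10] at hg
        exact absurd hg D.v4.s1
      · rw [h11] at hg
        exact absurd hg D.v4.r1
    · intro g
      rcases D.v4.all g with h | h | h | h
      · exact ⟨1, by rw [map_one, h]⟩
      · exact ⟨_, by rw [h, h10]⟩
      · exact ⟨_, by rw [h, h01]⟩
      · exact ⟨_, by rw [h, h11]⟩
  exact ⟨MulEquiv.ofBijective f hbij, h10, h01, h11⟩

/-- D5. -/
theorem arises_iso {V W : Type} [AddCommGroup V] [Module (ZMod 2) V] [AddCommGroup W]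
    [Module (ZMod 2) W] {ρ : Representation (ZMod 2) C22 V} {ρ' : Representation (ZMod 2) C22 W}
    (h : Iso ρ ρ') (ha : Arises ρ') : Arises ρ := by
  obtain ⟨e, he⟩ := h
  obtain ⟨K, i1, i2, i3, φ, i, N, hinj, heq, hst, hinf, hsup⟩ := ha
  let E : Multiplicative V ≃* Multiplicative W := AddEquiv.toMultiplicative e.toAddEquiv
  have hE : ∀ v : V, E (Multiplicative.ofAdd v) = Multiplicative.ofAdd (e v) := fun v => rfl
  have hr : (i.comp E.toMonoidHom).range = i.range := by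
    ext x
    constructor
    · rintro ⟨y, rfl⟩
      exact ⟨E y, rfl⟩
    · rintro ⟨y, rfl⟩
      exact ⟨E.symm y, by simp⟩
  refine ⟨K, i1, i2, i3, φ, i.comp E.toMonoidHom, N, ?_, ?_, hst, ?_, ?_⟩
  · exact hinj.comp E.injective
  · intro g v
    show i (E (Multiplicative.ofAdd (ρ g v))) = galAct (φ g) (i (E (Multiplicative.ofAdd v)))
    rw [hE, hE, he, heq]
  · rw [hr]; exact hinf
  · rw [hr]; exact hsup

/-- D6. -/
theorem arises_twist {V : Type} [AddCommGroup V] [Module (ZMod 2) V]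
    {ρ : Representation (ZMod 2) C22 V} (θ : C22 ≃* C22)
    (ha : Arises (MonoidHom.comp ρ θ.toMonoidHom)) : Arises ρ := by
  obtain ⟨K, i1, i2, i3, φ, i, N, hinj, heq, hst, hinf, hsup⟩ := ha
  refine ⟨K, i1, i2, i3, θ.symm.trans φ, i, N, hinj, ?_, ?_, hinf, hsup⟩
  · intro g v
    have h := heq (θ.symm g) v
    have h2 : (MonoidHom.comp ρ θ.toMonoidHom) (θ.symm g) = ρ g := by
      show ρ (θ (θ.symm g)) = ρ g
      rw [θ.apply_symm_apply]
    rw [h2] at h
    exact h
  · intro g x hx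
    exact hst (θ.symm g) x hx

end Pool.Agent.Helper41.BQ
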